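import Pool.Agent.Helper97.TN.St3
import Pool.Agent.Helper31.TN.M_G4

/-!
# Project TN: module R1 (`G4` for groups whose image contains the alternating group)

The proof of helper31's module G4 uses only that every permutation of `X` is realised by an element
of `G` on any four given points (`Four`); this holds also if the image contains the alternating group
and `X` has at least six points.
-/

set_option autoImplicit false

namespace Pool.Agent.Helper71.TN

open Pool.Agent.Helper97.TN Pool.Agent.Helper95.TT Pool.Agent.Helper24.TF Pool.Agent.Helper96.BC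
open Pool.Agent.Helper31.TN (dl ee dl_mul dl_self dl_sq dl_nonneg ee_self sum_dl fx_eq fx_sq_eq la_eq
  sy_eq avg_eq sum_tr exists_perm_two)
open scoped Classical

noncomputable section

/-- every permutation is realised by an element of `G` on any four points -/
def Four (G X : Type) [Group G] [MulAction G X] : Prop :=
  ∀ (π : Equiv.Perm X) (x y c d : X), ∃ g : G, g • x = π x ∧ g • y = π y ∧ g • c = π c ∧ g • d = π d

theorem four_of_rich {G X : Type} [Group G] [MulAction G X] [Fintype X] (h : Rich G X) :
    Four G X := by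
  intro π x y c d
  rcases h with ⟨_, h⟩ | ⟨h6, h⟩
  · obtain ⟨g, hg⟩ := h π
    exact ⟨g, hg x, hg y, hg c, hg d⟩
  · rcases Int.units_eq_one_or (Equiv.Perm.sign π) with hπ | hπ
    · obtain ⟨g, hg⟩ := h π hπ
      exact ⟨g, hg x, hg y, hg c, hg d⟩
    · have hS : (({x, y, c, d} : Finset X)).card ≤ 4 := Finset.card_le_four
      have hc : 2 ≤ (({x, y, c, d} : Finset X)ᶜ).card := by
        rw [Finset.card_compl]
        rw [Nat.card_eq_fintype_card] at h6
        omega
      obtain ⟨p, hp, q, hq, hpq⟩ := Finset.one_lt_card.mp (by omega : 1 < (({x, y, c, d} : Finset X)ᶜ).card)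
      have hfix : ∀ z ∈ ({x, y, c, d} : Finset X), Equiv.swap p q z = z := by
        intro z hz
        apply Equiv.swap_apply_of_ne_of_ne
        · intro e
          subst e
          exact Finset.mem_compl.mp hp hz
        · intro e
          subst e
          exact Finset.mem_compl.mp hq hz
      obtain ⟨g, hg⟩ := h (π * Equiv.swap p q) (by
        rw [Equiv.Perm.sign_mul, hπ, Equiv.Perm.sign_swap hpq]
        norm_num)
      refine ⟨g, ?_, ?_, ?_, ?_⟩
      · rw [hg, Equiv.Perm.mul_apply, hfix x (by simp)]
      · rw [hg, Equiv.Perm.mul_apply, hfix y (by simp)]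
      · rw [hg, Equiv.Perm.mul_apply, hfix c (by simp)]
      · rw [hg, Equiv.Perm.mul_apply, hfix d (by simp)]

section counting

variable {G X : Type} [Group G] [Fintype G] [Fintype X] [MulAction G X]

theorem s1 (hs : Four G X) (x : X) :
    (Fintype.card X : ℝ) * ∑ g : G, dl g x x = Fintype.card G := by
  have h1 : ∀ c : X, ∑ g : G, dl g x c = ∑ g : G, dl g x x := by
    intro c
    obtain ⟨h, hh, -, -, -⟩ := hs (Equiv.swap x c) x x x x
    rw [sum_tr (fun g => dl g x c) h]
    apply Finset.sum_congr rfl
    intro g _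
    have h2 : h • x = c := by rw [hh, Equiv.swap_apply_left]
    rw [← h2]
    exact dl_mul h g x x
  have h2 : ∑ c : X, ∑ g : G, dl g x c = (Fintype.card X : ℝ) * ∑ g : G, dl g x x := by
    rw [Finset.sum_congr rfl (fun c _ => h1 c)]
    simp
  rw [← h2, Finset.sum_comm]
  simp [sum_dl]

theorem s2_indep (hs : Four G X) {x y c d : X} (hxy : x ≠ y)
    (hcd : c ≠ d) : ∑ g : G, dl g x c * dl g y d = ∑ g : G, dl g x x * dl g y y := by
  obtain ⟨π, h1, h2⟩ := exists_perm_two hxy hcd
  obtain ⟨h, hx, hy, -, -⟩ := hs π x y x y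
  rw [sum_tr (fun g => dl g x c * dl g y d) h]
  apply Finset.sum_congr rfl
  intro g _
  rw [← h1, ← h2, ← hx, ← hy, dl_mul, dl_mul]

theorem s2 (hs : Four G X) {x y : X} (hxy : x ≠ y) :
    (Fintype.card X : ℝ) * ((Fintype.card X : ℝ) - 1) * ∑ g : G, dl g x x * dl g y y =
      Fintype.card G := by
  have h1 : ∀ c d : X, ∑ g : G, dl g x c * dl g y d =
      (1 - if c = d then (1 : ℝ) else 0) * ∑ g : G, dl g x x * dl g y y := by
    intro c d
    by_cases hcd : c = d
    · subst hcd
      rw [if_pos rfl, sub_self, zero_mul]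
      apply Finset.sum_eq_zero
      intro g _
      unfold dl
      by_cases e1 : g • x = c
      · by_cases e2 : g • y = c
        · exact absurd (MulAction.injective g (e1.trans e2.symm)) hxy
        · simp [e2]
      · simp [e1]
    · rw [if_neg hcd, sub_zero, one_mul]
      exact s2_indep hs hxy hcd
  have h2 : ∑ c : X, ∑ d : X, ∑ g : G, dl g x c * dl g y d = Fintype.card G := by
    have h3 : ∀ g : G, ∑ c : X, ∑ d : X, dl g x c * dl g y d = 1 := by
      intro g
      rw [← Finset.sum_mul_sum, sum_dl, sum_dl, one_mul]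
    calc ∑ c : X, ∑ d : X, ∑ g : G, dl g x c * dl g y d
        = ∑ c : X, ∑ g : G, ∑ d : X, dl g x c * dl g y d := by
          apply Finset.sum_congr rfl
          intro c _
          exact Finset.sum_comm
      _ = ∑ g : G, ∑ c : X, ∑ d : X, dl g x c * dl g y d := Finset.sum_comm
      _ = Fintype.card G := by simp [h3]
  rw [← h2, Finset.sum_congr rfl (fun c _ => Finset.sum_congr rfl (fun d _ => h1 c d))]
  simp only [← Finset.sum_mul]
  congr 1
  simp only [Finset.sum_sub_distrib, Finset.sum_ite_eq, Finset.mem_univ, if_true, Finset.sum_const,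
    Finset.card_univ, nsmul_eq_mul]
  ring

theorem s2_swap (hs : Four G X) {x y : X} (hxy : x ≠ y) :
    ∑ g : G, dl g x y * dl g y x = ∑ g : G, dl g x x * dl g y y :=
  s2_indep hs hxy hxy.symm

theorem s3 (hs : Four G X) {x y d : X} (hxy : x ≠ y)
    (hdx : d ≠ x) (hdy : d ≠ y) :
    ((Fintype.card X : ℝ) - 2) * ∑ g : G, dl g x x * dl g y y * dl g d d =
      ∑ g : G, dl g x x * dl g y y := by
  have h1 : ∀ z : X, ∑ g : G, dl g x x * dl g y y * dl g d z =
      (1 - (if z = x then (1 : ℝ) else 0) - if z = y then (1 : ℝ) else 0) *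
        ∑ g : G, dl g x x * dl g y y * dl g d d := by
    intro z
    by_cases hzx : z = x
    · subst hzx
      rw [if_pos rfl, if_neg hxy, sub_self, zero_sub, neg_zero, zero_mul]
      apply Finset.sum_eq_zero
      intro g _
      unfold dl
      by_cases e1 : g • z = z
      · by_cases e2 : g • d = z
        · exact absurd (MulAction.injective g (e2.trans e1.symm)) hdx
        · simp [e2]
      · simp [e1]
    · by_cases hzy : z = y
      · subst hzy
        rw [if_neg hzx, if_pos rfl, sub_zero, sub_self, zero_mul]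
        apply Finset.sum_eq_zero
        intro g _
        unfold dl
        by_cases e1 : g • z = z
        · by_cases e2 : g • d = z
          · exact absurd (MulAction.injective g (e2.trans e1.symm)) hdy
          · simp [e2]
        · simp [e1]
      · rw [if_neg hzx, if_neg hzy, sub_zero, sub_zero, one_mul]
        obtain ⟨h, hhx, hhy, hhd, -⟩ := hs (Equiv.swap d z) x y d d
        rw [sum_tr (fun g => dl g x x * dl g y y * dl g d z) h]
        apply Finset.sum_congr rfl
        intro g _
        have e1 : h • x = x := by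
          rw [hhx, Equiv.swap_apply_of_ne_of_ne (Ne.symm hdx) (Ne.symm hzx)]
        have e2 : h • y = y := by
          rw [hhy, Equiv.swap_apply_of_ne_of_ne (Ne.symm hdy) (Ne.symm hzy)]
        have e3 : h • d = z := by rw [hhd, Equiv.swap_apply_left]
        have f1 : dl (h * g) x x = dl g x x := by
          have := dl_mul h g x x
          rwa [e1] at this
        have f2 : dl (h * g) y y = dl g y y := by
          have := dl_mul h g y y
          rwa [e2] at this
        have f3 : dl (h * g) d z = dl g d d := by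
          have := dl_mul h g d d
          rwa [e3] at this
        rw [f1, f2, f3]
  have h2 : ∑ z : X, ∑ g : G, dl g x x * dl g y y * dl g d z = ∑ g : G, dl g x x * dl g y y := by
    rw [Finset.sum_comm]
    apply Finset.sum_congr rfl
    intro g _
    rw [← Finset.mul_sum, sum_dl, mul_one]
  rw [← h2, Finset.sum_congr rfl (fun z _ => h1 z), ← Finset.sum_mul]
  congr 1
  simp only [Finset.sum_sub_distrib, Finset.sum_ite_eq', Finset.mem_univ, if_true, Finset.sum_const,
    Finset.card_univ, nsmul_eq_mul]
  ring

/-- the sum over `g` of `e_xy e_cd` -/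
theorem kk (hs : Four G X) {x y : X} (hxy : x ≠ y)
    (c d : X) (A s : ℝ) (hA : ∑ g : G, dl g x x * dl g y y = A)
    (h3 : ∀ d : X, d ≠ x → d ≠ y → ∑ g : G, dl g x x * dl g y y * dl g d d = s) :
    ∑ g : G, ee g x y * ee g c d =
      ((if c = x then 1 else 0) + (if c = y then 1 else 0)) *
        ((if d = x then 1 else 0) + (if d = y then 1 else 0)) *
        (1 - if c = d then 1 else 0) * (2 * A) +
      (((if c = x then 1 else 0) + (if c = y then 1 else 0)) *
        (1 - ((if d = x then 1 else 0) + (if d = y then 1 else 0))) +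
       (1 - ((if c = x then 1 else 0) + (if c = y then 1 else 0))) *
        ((if d = x then 1 else 0) + (if d = y then 1 else 0))) * s := by
  have hyx : y ≠ x := hxy.symm
  -- both in
  have hin : ∑ g : G, ee g x y * ee g x y = 2 * A := by
    have h1 : ∀ g : G, ee g x y * ee g x y = dl g x x * dl g y y + dl g x y * dl g y x := by
      intro g
      have e1 := dl_self (g := g) (x := x) hxy
      have e2 := dl_sq g x x
      have e3 := dl_sq g y y
      have e4 := dl_sq g x y
      have e5 := dl_sq g y x
      unfold ee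
      linear_combination (dl g y y * dl g y y) * e2 + dl g x x * e3 + (dl g y x * dl g y x) * e4 +
        dl g x y * e5 - 2 * (dl g y y * dl g y x) * e1
    rw [Finset.sum_congr rfl (fun g _ => h1 g), Finset.sum_add_distrib, s2_swap hs hxy, hA]
    ring
  -- one in
  have hone : ∀ d : X, d ≠ x → d ≠ y → ∑ g : G, ee g x y * ee g x d = s := by
    intro d hdx hdy
    rw [← h3 d hdx hdy]
    apply Finset.sum_congr rfl
    intro g _
    have e1 := dl_self (g := g) (x := x) (Ne.symm hdx)
    have e2 := dl_self (g := g) (x := x) hxy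
    have e3 := dl_self (g := g) (x := x) (Ne.symm hdy)
    have e4 := dl_sq g x x
    unfold ee
    linear_combination (dl g y y * dl g d d) * e4 - (dl g y y * dl g d x) * e1 -
      (dl g y x * dl g d d) * e2 + (dl g y x * dl g d x) * e3
  have hsw : ∀ g : G, ∀ a b : X, ee g a b = ee g b a := by
    intro g a b
    unfold ee
    ring
  have hone' : ∀ d : X, d ≠ x → d ≠ y → ∑ g : G, ee g x y * ee g y d = s := by
    intro d hdx hdy
    rw [← h3 d hdx hdy]
    apply Finset.sum_congr rfl
    intro g _
    have e1 := dl_self (g := g) (x := y) (Ne.symm hdy)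
    have e2 := dl_self (g := g) (x := y) hyx
    have e3 := dl_self (g := g) (x := y) (Ne.symm hdx)
    have e4 := dl_sq g y y
    unfold ee
    linear_combination (dl g x x * dl g d d) * e4 - (dl g x x * dl g d y) * e1 -
      (dl g x y * dl g d d) * e2 + (dl g x y * dl g d y) * e3
  -- none in
  have hout : ∀ c d : X, c ≠ x → c ≠ y → d ≠ x → d ≠ y → ∑ g : G, ee g x y * ee g c d = 0 := by
    intro c d hcx hcy hdx hdy
    obtain ⟨h, hhx, hhy, hhc, hhd⟩ := hs (Equiv.swap x y) x y c d
    have e1 : h • x = y := by rw [hhx, Equiv.swap_apply_left]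
    have e2 : h • y = x := by rw [hhy, Equiv.swap_apply_right]
    have e3 : h • c = c := by rw [hhc, Equiv.swap_apply_of_ne_of_ne hcx hcy]
    have e4 : h • d = d := by rw [hhd, Equiv.swap_apply_of_ne_of_ne hdx hdy]
    have key : ∑ g : G, ee g x y * ee g c d = - ∑ g : G, ee g x y * ee g c d := by
      conv_lhs => rw [sum_tr (fun g => ee g x y * ee g c d) h]
      rw [← Finset.sum_neg_distrib]
      apply Finset.sum_congr rfl
      intro g _
      have f1 : ∀ a : X, dl (h * g) a x = dl g a y := by
        intro a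
        have := dl_mul h g a y
        rwa [e2] at this
      have f2 : ∀ a : X, dl (h * g) a y = dl g a x := by
        intro a
        have := dl_mul h g a x
        rwa [e1] at this
      have f3 : ∀ a : X, dl (h * g) a c = dl g a c := by
        intro a
        have := dl_mul h g a c
        rwa [e3] at this
      have f4 : ∀ a : X, dl (h * g) a d = dl g a d := by
        intro a
        have := dl_mul h g a d
        rwa [e4] at this
      unfold ee
      rw [f1, f1, f2, f2, f3, f3, f4, f4]
      ring
    linarith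
  by_cases hcd : c = d
  · subst hcd
    rw [if_pos rfl, sub_self, mul_zero, zero_mul, zero_add]
    have h0 : ∑ g : G, ee g x y * ee g c c = 0 := by
      apply Finset.sum_eq_zero
      intro g _
      rw [ee_self, mul_zero]
    rw [h0]
    by_cases hcx : c = x
    · subst hcx
      simp [hxy]
    · by_cases hcy : c = y
      · subst hcy
        simp [hyx]
      · simp [hcx, hcy]
  · rw [if_neg hcd, sub_zero, mul_one]
    by_cases hcx : c = x
    · subst hcx
      by_cases hdy : d = y
      · subst hdy
        rw [hin]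
        simp [hxy, hyx]
      · rw [hone d (Ne.symm hcd) hdy]
        simp [hxy, hdy, Ne.symm hcd]
    · by_cases hcy : c = y
      · subst hcy
        by_cases hdx : d = x
        · subst hdx
          rw [Finset.sum_congr rfl (fun g _ => by rw [hsw g c d])]
          rw [hin]
          simp [hxy, hyx]
        · rw [hone' d hdx (Ne.symm hcd)]
          simp [hyx, hdx, Ne.symm hcd]
      · by_cases hdx : d = x
        · subst hdx
          rw [Finset.sum_congr rfl (fun g _ => by rw [hsw g c d]), hone c hcx hcy]
          simp [hcx, hcy, hxy]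
        · by_cases hdy : d = y
          · subst hdy
            rw [Finset.sum_congr rfl (fun g _ => by rw [hsw g c d]), hone' c hcx hcy]
            simp [hcx, hcy, hyx]
          · rw [hout c d hcx hcy hdx hdy]
            simp [hcx, hcy, hdx, hdy]

/-- the sum over `c`, `d` -/
theorem kk_sum (hs : Four G X) {x y : X} (hxy : x ≠ y)
    (A : ℝ) (hA0 : 0 ≤ A) (hA : ∑ g : G, dl g x x * dl g y y = A) :
    ∑ c : X, ∑ d : X, ∑ g : G, ee g x y * ee g c d ≤ 8 * A := by
  obtain ⟨s, hs'⟩ : ∃ s : ℝ, s = A / ((Fintype.card X : ℝ) - 2) := ⟨_, rfl⟩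
  have h3 : ∀ d : X, d ≠ x → d ≠ y → ∑ g : G, dl g x x * dl g y y * dl g d d = s := by
    intro d hdx hdy
    have h1 := s3 hs hxy hdx hdy
    have h2 : 2 < Fintype.card X := by
      have h4 : ({x, y, d} : Finset X).card = 3 :=
        Finset.card_eq_three.mpr ⟨x, y, d, hxy, Ne.symm hdx, Ne.symm hdy, rfl⟩
      have h5 := Finset.card_le_univ ({x, y, d} : Finset X)
      omega
    have h4 : (2 : ℝ) < Fintype.card X := by exact_mod_cast h2
    have h5 : (Fintype.card X : ℝ) - 2 ≠ 0 := by linarith
    rw [hs', eq_div_iff h5, ← hA, ← h1]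
    ring
  have hns : ((Fintype.card X : ℝ) - 2) * s ≤ A := by
    rw [hs']
    by_cases h : (Fintype.card X : ℝ) - 2 = 0
    · rw [h]; simpa using hA0
    · rw [mul_div_cancel₀ _ h]
  rw [Finset.sum_congr rfl (fun c _ => Finset.sum_congr rfl (fun d _ => kk hs hxy c d A s hA h3))]
  have hyx : y ≠ x := hxy.symm
  have ha : ∀ c : X, ((if c = x then (1 : ℝ) else 0) + (if c = y then 1 else 0)) ^ 2 =
      (if c = x then (1 : ℝ) else 0) + (if c = y then 1 else 0) := by
    intro c
    by_cases h1 : c = x
    · subst h1; simp [hxy]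
    · simp [h1]
  have hsum : ∑ c : X, ((if c = x then (1 : ℝ) else 0) + (if c = y then 1 else 0)) = 2 := by
    rw [Finset.sum_add_distrib]
    simp
    norm_num
  obtain ⟨a, ha'⟩ : ∃ a : X → ℝ, a = fun c => (if c = x then (1 : ℝ) else 0) +
    (if c = y then 1 else 0) := ⟨_, rfl⟩
  have hac : ∀ c, (if c = x then (1 : ℝ) else 0) + (if c = y then 1 else 0) = a c := by
    intro c; rw [ha']
  simp only [hac] at ha hsum ⊢
  have e1 : ∑ c : X, ∑ d : X, (a c * a d * (1 - if c = d then (1 : ℝ) else 0) * (2 * A) +
      (a c * (1 - a d) + (1 - a c) * a d) * s) =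
      (∑ c : X, ∑ d : X, (a c * a d)) * (2 * A) -
      (∑ c : X, ∑ d : X, (if c = d then a c * a d else 0)) * (2 * A) +
      (∑ c : X, ∑ d : X, (a c * (1 - a d))) * s + (∑ c : X, ∑ d : X, ((1 - a c) * a d)) * s := by
    simp only [Finset.sum_mul]
    rw [← Finset.sum_sub_distrib, ← Finset.sum_add_distrib, ← Finset.sum_add_distrib]
    apply Finset.sum_congr rfl
    intro c _
    rw [← Finset.sum_sub_distrib, ← Finset.sum_add_distrib, ← Finset.sum_add_distrib]
    apply Finset.sum_congr rfl
    intro d _
    split_ifs <;> ring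
  rw [e1]
  have e2 : ∑ c : X, ∑ d : X, (a c * a d) = 4 := by
    rw [← Finset.sum_mul_sum, hsum]; norm_num
  have e3 : ∑ c : X, ∑ d : X, (if c = d then a c * a d else 0) = 2 := by
    have e4 : ∀ c : X, ∑ d : X, (if c = d then a c * a d else 0) = a c := by
      intro c
      rw [Finset.sum_ite_eq]
      simp only [Finset.mem_univ, if_true]
      rw [← sq, ha]
    rw [Finset.sum_congr rfl (fun c _ => e4 c), hsum]
  have e5 : ∑ d : X, (1 - a d) = (Fintype.card X : ℝ) - 2 := by
    rw [Finset.sum_sub_distrib, hsum]
    simp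
  have e6 : ∑ c : X, ∑ d : X, (a c * (1 - a d)) = 2 * ((Fintype.card X : ℝ) - 2) := by
    rw [← Finset.sum_mul_sum, hsum, e5]
  have e7 : ∑ c : X, ∑ d : X, ((1 - a c) * a d) = ((Fintype.card X : ℝ) - 2) * 2 := by
    rw [← Finset.sum_mul_sum, hsum, e5]
  rw [e2, e3, e6, e7]
  nlinarith [hns]

end counting

/-- `G4` for actions that realise every permutation on every four points -/
theorem four_G4 (G : Type) [Group G] [Finite G] (X : Type) [Fintype X] [MulAction G X]
    (hX : 2 ≤ Nat.card X) (hs : Four G X) :
    avg (fun g : G => sy (fx X) g) = 2 ∧ avg (fun g : G => la (fx X) g) = 0 ∧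
    0 < avg (fun g : G => la (fx X) g ^ 2) ∧ avg (fun g : G => la (fx X) g ^ 2) ≤ 2 := by
  have : Fintype G := Fintype.ofFinite G
  rw [Nat.card_eq_fintype_card] at hX
  have hn : (2 : ℝ) ≤ Fintype.card X := by exact_mod_cast hX
  have hG : (0 : ℝ) < Fintype.card G := by
    have : 0 < Fintype.card G := Fintype.card_pos
    exact_mod_cast this
  obtain ⟨n, hn'⟩ : ∃ n : ℝ, n = Fintype.card X := ⟨_, rfl⟩
  obtain ⟨N, hN'⟩ : ∃ n : ℝ, n = Fintype.card G := ⟨_, rfl⟩
  rw [← hn'] at hn
  rw [← hN'] at hG
  obtain ⟨A, hA'⟩ : ∃ A : ℝ, A = N / (n * (n - 1)) := ⟨_, rfl⟩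
  have hn1 : 0 < n * (n - 1) := mul_pos (by linarith) (by linarith)
  have hA0 : 0 ≤ A := by rw [hA']; positivity
  have hA : ∀ x y : X, x ≠ y → ∑ g : G, dl g x x * dl g y y = A := by
    intro x y hxy
    have h1 := s2 hs hxy
    rw [← hn', ← hN'] at h1
    rw [hA', eq_div_iff hn1.ne', ← h1]
    ring
  have hB : ∀ x : X, ∑ g : G, dl g x x * dl g x x = N / n := by
    intro x
    have h1 := s1 hs x
    rw [← hn', ← hN'] at h1
    rw [Finset.sum_congr rfl (fun g _ => dl_sq g x x), eq_div_iff (by linarith), ← h1]
    ring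
  have hAB : ∀ x y : X, ∑ g : G, dl g x x * dl g y y = A + if x = y then (N / n - A) else 0 := by
    intro x y
    by_cases h : x = y
    · subst h
      rw [if_pos rfl, hB]; ring
    · rw [if_neg h, hA x y h]; ring
  have hAB' : ∀ x y : X, ∑ g : G, dl g x y * dl g y x = A + if x = y then (N / n - A) else 0 := by
    intro x y
    by_cases h : x = y
    · subst h
      rw [if_pos rfl, hB]; ring
    · rw [if_neg h, s2_swap hs h, hA x y h]; ring
  have hsumn : ∑ x : X, ∑ y : X, (A + if x = y then (N / n - A) else 0) = 2 * N := by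
    have h1 : ∀ x : X, ∑ y : X, (A + if x = y then (N / n - A) else 0) = n * A + (N / n - A) := by
      intro x
      rw [Finset.sum_add_distrib, Finset.sum_ite_eq]
      simp [hn']
    rw [Finset.sum_congr rfl (fun x _ => h1 x), Finset.sum_const, Finset.card_univ, nsmul_eq_mul,
      ← hn', hA']
    have h2 : n ≠ 0 := by linarith
    have h3 : n - 1 ≠ 0 := by linarith
    field_simp
    ring
  have hswap : ∀ F : G → X → X → ℝ, ∑ g : G, ∑ x : X, ∑ y : X, F g x y =
      ∑ x : X, ∑ y : X, ∑ g : G, F g x y := by
    intro F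
    rw [Finset.sum_comm]
    apply Finset.sum_congr rfl
    intro x _
    exact Finset.sum_comm
  refine ⟨?_, ?_, ?_, ?_⟩
  · rw [avg_eq, ← hN', div_eq_iff hG.ne']
    have h1 : ∑ g : G, sy (fx X) g = (∑ x : X, ∑ y : X, ∑ g : G,
        (dl g x x * dl g y y + dl g x y * dl g y x)) / 2 := by
      rw [Finset.sum_congr rfl (fun g _ => sy_eq g), ← Finset.sum_div, hswap]
    rw [h1]
    simp only [Finset.sum_add_distrib (s := (Finset.univ : Finset G))]
    rw [Finset.sum_congr rfl (fun x _ => Finset.sum_congr rfl (fun y _ => by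
      rw [hAB x y, hAB' x y]))]
    rw [Finset.sum_congr rfl (fun x _ => Finset.sum_add_distrib), Finset.sum_add_distrib, hsumn]
    ring
  · rw [avg_eq, ← hN', div_eq_iff hG.ne', zero_mul]
    have h1 : ∑ g : G, la (fx X) g = (∑ x : X, ∑ y : X, ∑ g : G, ee g x y) / 2 := by
      rw [Finset.sum_congr rfl (fun g _ => la_eq g), ← Finset.sum_div, hswap]
    rw [h1]
    have h2 : ∀ x y : X, ∑ g : G, ee g x y = 0 := by
      intro x y
      unfold ee
      rw [Finset.sum_sub_distrib, hAB, hAB', sub_self]
    simp [h2]
  · rw [avg_eq, ← hN']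
    apply div_pos _ hG
    have h1 : 0 < la (fx X) (1 : G) ^ 2 := by
      have h2 : fx X (1 : G) = n := by
        rw [fx_eq]
        unfold dl
        simp [hn']
      unfold la
      rw [mul_one, h2]
      have h3 : 0 < (n ^ 2 - n) / 2 := by nlinarith
      positivity
    calc 0 < la (fx X) (1 : G) ^ 2 := h1
      _ ≤ ∑ g : G, la (fx X) g ^ 2 :=
        Finset.single_le_sum (f := fun g : G => la (fx X) g ^ 2) (fun g _ => sq_nonneg _)
          (Finset.mem_univ _)
  · rw [avg_eq, ← hN', div_le_iff₀ hG]
    have h1 : ∀ g : G, la (fx X) g ^ 2 =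
        (∑ x : X, ∑ y : X, ∑ c : X, ∑ d : X, ee g x y * ee g c d) / 4 := by
      intro g
      have h2 : ∑ x : X, ∑ y : X, ∑ c : X, ∑ d : X, ee g x y * ee g c d =
          (∑ x : X, ∑ y : X, ee g x y) * (∑ c : X, ∑ d : X, ee g c d) := by
        rw [Finset.sum_mul]
        apply Finset.sum_congr rfl
        intro x _
        rw [Finset.sum_mul]
        apply Finset.sum_congr rfl
        intro y _
        rw [Finset.mul_sum]
        apply Finset.sum_congr rfl
        intro c _
        rw [Finset.mul_sum]
      rw [h2, la_eq]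
      ring
    rw [Finset.sum_congr rfl (fun g _ => h1 g), ← Finset.sum_div,
      hswap (fun g x y => ∑ c : X, ∑ d : X, ee g x y * ee g c d)]
    have h3 : ∀ x y : X, ∑ g : G, ∑ c : X, ∑ d : X, ee g x y * ee g c d ≤
        8 * A - if x = y then 8 * A else 0 := by
      intro x y
      rw [hswap (fun g c d => ee g x y * ee g c d)]
      by_cases h : x = y
      · subst h
        rw [if_pos rfl, sub_self]
        apply le_of_eq
        simp [ee_self]
      · rw [if_neg h, sub_zero]
        exact kk_sum hs h A hA0 (hA x y h)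
    have h4 : ∑ x : X, ∑ y : X, ∑ g : G, ∑ c : X, ∑ d : X, ee g x y * ee g c d ≤
        ∑ x : X, ∑ y : X, (8 * A - if x = y then 8 * A else 0) :=
      Finset.sum_le_sum (fun x _ => Finset.sum_le_sum (fun y _ => h3 x y))
    have h5 : ∑ x : X, ∑ y : X, (8 * A - if x = y then 8 * A else 0) = 8 * N := by
      have h6 : ∀ x : X, ∑ y : X, (8 * A - if x = y then 8 * A else 0) = (n - 1) * (8 * A) := by
        intro x
        rw [Finset.sum_sub_distrib, Finset.sum_ite_eq]
        simp only [Finset.mem_univ, if_true, Finset.sum_const, Finset.card_univ, nsmul_eq_mul]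
        rw [← hn']
        ring
      rw [Finset.sum_congr rfl (fun x _ => h6 x), Finset.sum_const, Finset.card_univ, nsmul_eq_mul,
        ← hn', hA']
      have h2 : n ≠ 0 := by linarith
      have h3 : n - 1 ≠ 0 := by linarith
      field_simp
    linarith


/-- **R1** -/
theorem hR1 : StR1 := by
  intro G _ _ X _ _ hR
  have hX : 2 ≤ Nat.card X := by
    rcases hR with ⟨h | h, _⟩ | ⟨h, _⟩ <;> omega
  exact four_G4 G X hX (four_of_rich hR)

end

end Pool.Agent.Helper71.TN
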